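import Pool.Agent.Helper32_ND.Stmts
import Pool.Agent.Helper75_CR.Baut
import Pool.Agent.Helper10_CR.Ops

/-!
# The n/d theorem, module MAIN
-/

set_option autoImplicit false

namespace Pool.Agent.ND.H9

open Finset

/-- a polynomial of degree one has a nonzero linear part -/
lemma lp_ne_zero {σ : Type} (a : MvPolynomial σ ℂ) (ha : a.totalDegree = 1) : lp a ≠ 0 := by
  intro h
  have h1 : ∀ l, MvPolynomial.coeff (Finsupp.single l 1) a = 0 := fun l => congrFun h l
  obtain ⟨m, hm, hd⟩ : ∃ m ∈ a.support, (m.sum fun _ e => e) = 1 := by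
    have hne : a.support.Nonempty := by
      rw [Finset.nonempty_iff_ne_empty]
      intro h0
      have : a = 0 := MvPolynomial.support_eq_empty.1 h0
      rw [this, MvPolynomial.totalDegree_zero] at ha
      exact zero_ne_one ha
    obtain ⟨m, hm, hs⟩ := Finset.exists_mem_eq_sup a.support hne (fun s => s.sum fun _ e => e)
    refine ⟨m, hm, ?_⟩
    rw [← ha, MvPolynomial.totalDegree, hs]
  have h2 : ∃ l, m = Finsupp.single l 1 := by
    exact (Finsupp.sum_eq_one_iff m).1 hd
  obtain ⟨l, rfl⟩ := h2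
  exact (MvPolynomial.mem_support_iff.1 hm) (h1 l)

theorem main (hNDC : NdcStmt) (hRK1 : Rk1Stmt) (hCRD : CrdStmt) : NdStmt := by
  intro σ ι _ _ _ a ha m hm z hz g hg hc
  classical
  obtain ⟨i0⟩ := (inferInstance : Nonempty ι)
  have hfin : FiniteDimensional ℂ (Submodule.span ℂ (Set.range fun i => lp (a i))) :=
    FiniteDimensional.span_of_finite ℂ (Set.finite_range _)
  have hpos : 0 < Module.finrank ℂ (Submodule.span ℂ (Set.range fun i => lp (a i))) := by
    rw [Module.finrank_pos_iff]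
    refine ⟨⟨⟨lp (a i0), Submodule.subset_span ⟨i0, rfl⟩⟩, 0, fun h => ?_⟩⟩
    exact lp_ne_zero (a i0) (ha i0) (congrArg Subtype.val h)
  obtain h1 | ⟨M, hM⟩ : Module.finrank ℂ (Submodule.span ℂ (Set.range fun i => lp (a i))) = 1 ∨
      ∃ M, Module.finrank ℂ (Submodule.span ℂ (Set.range fun i => lp (a i))) = M + 2 := by
    by_cases h : Module.finrank ℂ (Submodule.span ℂ (Set.range fun i => lp (a i))) = 1
    · exact Or.inl h
    · exact Or.inr ⟨Module.finrank ℂ (Submodule.span ℂ (Set.range fun i => lp (a i))) - 2, by omega⟩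
  · have h2 := hRK1 σ ι a ha m hm z hz g hg h1
    rw [h1, Nat.cast_one]
    exact h2
  · obtain ⟨L, B, κ, _, Φ, hL, hB, hC, hΦ, hΦg⟩ := hCRD σ ι a ha z hz g hg hc M hM
    have h2 := hNDC ι M L hL B hB hC m hm κ (Φ g) hΦg
    have h3 : Φ ((∏ i, a i ^ m i) * g) = MvPolynomial.rename Sum.inl (fW L m) * Φ g := by
      rw [map_mul, map_prod]
      unfold fW
      rw [map_prod]
      congr 1
      refine Finset.prod_congr rfl fun i _ => ?_
      rw [map_pow, map_pow, hΦ]
    have h4 := Helper8_CR.H75.baut Helper8_CR.H10.ops _ _ Φ ((∏ i, a i ^ m i) * g)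
    rw [h3] at h4
    rw [hM, ← h4]
    exact h2

end Pool.Agent.ND.H9
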